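import Pool.Agent.H752.PL.Stubs
import Pool.Agent.H620R2.Gauge.Cover

/-! Task L12: the set of oracles relative to which the hard language is in polylogarithmic space is
a null set for every gauge satisfying the condition. -/

namespace Pool.Agent.H752.PL

open Pool.Agent.NPC Pool.Agent.H620R2.Gauge Finset H568R2 Pool.Agent.H752.GE Filter

theorem l12_countable : Countable MAlg := by
  have h1 : Countable {D : List Bool → List Bool | PolyTime D} := countable_polyTime.to_subtype
  let F : MAlg → {D : List Bool → List Bool | PolyTime D} ×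
    {D : List Bool → List Bool | PolyTime D} := fun M => (⟨M.act, M.act_poly⟩, ⟨M.next, M.next_poly⟩)
  have hF : Function.Injective F := by
    intro M N h
    obtain ⟨D, hD, E, hE⟩ := M
    obtain ⟨D', hD', E', hE'⟩ := N
    simp only [F, Prod.mk.injEq, Subtype.mk.injEq] at h
    obtain ⟨rfl, rfl⟩ := h
    rfl
  exact hF.countable

/-- the oracles for which the parameters are good -/
def L12Easy (θ : MAlg × ℕ) : Set Oracle :=
  {A | ∀ x : List Bool,
    (∀ s y, θ.1.Reach A x s y → s.length ≤ (Nat.log 2 x.length + θ.2) ^ θ.2) ∧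
    ∃ s y, θ.1.Reach A x s y ∧ ((x ∈ HL A ∧ θ.1.act s = [true]) ∨ (x ∉ HL A ∧ θ.1.act s = []))}

theorem l12_hl {N n : ℕ} {A : Oracle} (hN : 2 ^ (3 * n + 3) ≤ N) {x : List Bool}
    (hx : x.length = n) : x ∈ HL (orc N (pre N A)) ↔ x ∈ HL A := by
  have h0 : ∀ q : List Bool, q.length ≤ 3 * n + 1 → orc N (pre N A) q = A q := by
    intro q hq
    apply orc_pre
    have h2 := idx_lt q
    have h4 : 2 ^ (q.length + 1) ≤ 2 ^ (3 * n + 3) :=
      Nat.pow_le_pow_right (by norm_num) (by omega)
    omega
  have h1 : (List.range (2 * x.length)).map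
      (fun i => orc N (pre N A) (false :: (x ++ List.replicate i true))) =
      (List.range (2 * x.length)).map (fun i => A (false :: (x ++ List.replicate i true))) := by
    apply List.map_congr_left
    intro i hi
    rw [List.mem_range] at hi
    apply h0
    simp only [List.length_cons, List.length_append, List.length_replicate]
    omega
  unfold HL
  simp only [Set.mem_ofPred_eq]
  rw [h1]
  have h2 : orc N (pre N A) (true :: (List.range (2 * x.length)).map
      (fun i => A (false :: (x ++ List.replicate i true)))) =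
      A (true :: (List.range (2 * x.length)).map
      (fun i => A (false :: (x ++ List.replicate i true)))) := by
    by_cases hn : n = 0
    · subst hn
      apply orc_pre
      have h3 : x = [] := List.eq_nil_of_length_eq_zero hx
      subst h3
      have h4 : idx (true :: (List.range (2 * ([] : List Bool).length)).map
        (fun i => A (false :: (([] : List Bool) ++ List.replicate i true)))) + 1 < 2 ^ 2 := by
        have := idx_lt (true :: (List.range (2 * ([] : List Bool).length)).map
          (fun i => A (false :: (([] : List Bool) ++ List.replicate i true))))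
        simpa using this
      have h5 : 2 ^ (3 * 0 + 3) = 8 := by norm_num
      omega
    · apply h0
      simp only [List.length_cons, List.length_map, List.length_range]
      omega
  rw [h2]

theorem l12_cover (h6 : St_acc) (h7 : St_qs) (h10 : St_pr) (h11 : St_asy)
    (θ : MAlg × ℕ) (f : ℕ → ℝ) (hf : CondL f)
    (δ : ℝ) (hδ : 0 < δ) : ∃ S : Set (List Bool), (∀ A ∈ L12Easy θ, ∃ σ ∈ S, Extends A σ) ∧
    ∑' σ : S, ENNReal.ofReal (2 ^ (f σ.1.length - σ.1.length)) ≤ ENNReal.ofReal δ := by
  classical
  obtain ⟨M, c⟩ := θ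
  obtain ⟨w, hw⟩ := h7 M
  obtain ⟨n, N, hn1, hn, hN3, hNw, hb⟩ := h11 f hf c w δ hδ
  set B : ℕ := (Nat.log 2 n + c) ^ c with hB
  choose U hUc hUl hUa using fun j : Fin (2 ^ n) => hw B (bitsOf n j)
  have hpr := h10 n (B + 1) N hn1 (by omega) hN3 U hUc
    (fun j A => AccB M B A (bitsOf n j)) (fun j A A' h => hUa j A A' h)
  obtain ⟨E, hE⟩ : ∃ E : (Fin N → Bool) → Prop, ∀ σ, E σ ↔ ∀ j : Fin (2 ^ n),
      (AccB M B (orc N σ) (bitsOf n j) ↔ bitsOf n j ∈ HL (orc N σ)) := ⟨_, fun _ => Iff.rfl⟩
  refine ⟨(fun a : Fin N → Bool => List.ofFn a) '' {a | E a}, ?_, ?_⟩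
  · intro A hA
    refine ⟨List.ofFn (pre N A), ⟨pre N A, (hE _).2 ?_, rfl⟩, ?_⟩
    · intro j
      have hlen : (bitsOf n j).length = n := length_bitsOf n j
      obtain ⟨hA1, hA2⟩ := hA (bitsOf n j)
      rw [hlen] at hA1
      have h1 := h6 M B A (bitsOf n j) (HL A) hA1 hA2
      have h2 : AccB M B (orc N (pre N A)) (bitsOf n j) ↔ AccB M B A (bitsOf n j) := by
        apply hUa j
        intro u hu
        apply orc_pre
        have h3 := hUl j u hu
        have h4 := idx_lt u
        have h5 : 2 ^ (u.length + 1) ≤ 2 ^ (2 ^ (B + 1) * w.eval B + 1) :=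
          Nat.pow_le_pow_right (by norm_num) (by omega)
        omega
      rw [h2, h1, l12_hl hN3 hlen]
    · intro i hi
      rw [List.getElem_ofFn]
      rfl
  · have hinj : Set.InjOn (fun a : Fin N → Bool => List.ofFn a) {a | E a} :=
      fun a _ b _ h => List.ofFn_injective h
    rw [tsum_image (fun σ : List Bool => ENNReal.ofReal (2 ^ (f σ.length - σ.length))) hinj]
    simp only [List.length_ofFn]
    rw [tsum_fintype, Finset.sum_const, nsmul_eq_mul, Finset.card_univ]
    rw [← ENNReal.ofReal_natCast, ← ENNReal.ofReal_mul (by positivity)]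
    apply ENNReal.ofReal_le_ofReal
    have h1 : Fintype.card {a : Fin N → Bool | E a} =
        (univ.filter (fun a : Fin N → Bool => E a)).card := by
      rw [← Fintype.card_subtype]
      rfl
    have h2 := card_of_Ex (fun a : Fin N → Bool => E a)
    have h3 : (2 : ℝ) ^ (f N - N) = 2 ^ (-(N : ℝ)) * 2 ^ f N := by
      rw [← Real.rpow_add (by norm_num)]; congr 1; ring
    rw [h1, h3, ← mul_assoc, h2]
    refine le_trans (mul_le_mul_of_nonneg_right ?_ (by positivity)) hb
    refine le_trans (le_of_eq ?_) hpr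
    unfold Ex
    refine Finset.sum_congr rfl fun σ _ => ?_
    beta_reduce
    by_cases h : E σ
    · rw [if_pos h, if_pos ((hE σ).1 h)]
    · rw [if_neg h, if_neg (fun h' => h ((hE σ).2 h'))]

theorem t_null (h6 : St_acc) (h7 : St_qs) (h10 : St_pr) (h11 : St_asy) : St_null := by
  intro f hf O hO δ hδ
  have := l12_countable
  obtain ⟨δ', hδ', hsum⟩ := ENNReal.exists_pos_sum_of_countable
    (ENNReal.ofReal_pos.2 hδ).ne' (MAlg × ℕ)
  choose S hS hSs using fun θ : MAlg × ℕ =>
    l12_cover h6 h7 h10 h11 θ f hf (δ' θ) (by exact_mod_cast hδ' θ)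
  refine ⟨⋃ θ, S θ, ?_, ?_⟩
  · intro A hA
    obtain ⟨M, c, hθ⟩ := hO A hA
    obtain ⟨σ, hσ, hE⟩ := hS (M, c) A hθ
    exact ⟨σ, Set.mem_iUnion.2 ⟨(M, c), hσ⟩, hE⟩
  · refine (ENNReal.tsum_iUnion_le_tsum (fun σ : List Bool =>
      ENNReal.ofReal (2 ^ (f σ.length - σ.length))) S).trans ?_
    refine (ENNReal.tsum_le_tsum hSs).trans ?_
    refine le_trans (le_of_eq ?_) hsum.le
    congr 1
    funext θ
    exact ENNReal.ofReal_coe_nnreal

end Pool.Agent.H752.PL
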